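import Pool.Agent.W798.SP.Stm
import Pool.Agent.W798.SP.Basic

/-!
Project SPX (helper798): the conditional entropic Szemeredi-Trotter inequality.
-/

set_option autoImplicit false

open Finset
open scoped Classical Pointwise

namespace Pool.Agent.W179.SP

open Pool.Agent.W904.AK Pool.Agent.W798.SP

theorem tSTC (h1 : S_ST2) (h2 : S_GC) : S_STC := by
  intro Ω γ _ p Q x y a b n m X Y L hp hX hY hL hsup
  have key := h2 p Q (fun ω => (a ω, b ω)) (fun ω => (x ω, y ω))
    (fun q => (L q).filter (fun l => l.1 ≠ 0))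
    (fun q l => ((X q).filter (fun x => l.1 * x + l.2 ∈ Y q)).image (fun x => (x, l.1 * x + l.2)))
    3 (4097 * ((Nat.log 2 n : ℝ) + 1) * ((n : ℝ) * m) ^ 2) hp ?_ ?_
  · obtain ⟨ω, hω⟩ : ∃ ω, p ω ≠ 0 := by
      by_contra hcon
      push Not at hcon
      have h3 := hp.2
      simp [hcon] at h3
    have h3 := hsup ω hω
    have hn : 1 ≤ n := (Finset.card_pos.2 ⟨_, h3.1⟩).trans_le (hX _)
    have hm : 1 ≤ m := (Finset.card_pos.2 ⟨_, h3.2.1⟩).trans_le (hY _)
    have hn' : (0 : ℝ) < n := by exact_mod_cast hn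
    have hm' : (0 : ℝ) < m := by exact_mod_cast hm
    have h4 : Real.log (4097 * ((Nat.log 2 n : ℝ) + 1) * ((n : ℝ) * m) ^ 2) =
        Cst n + 2 * Real.log (n * m) := by
      rw [Real.log_mul (by positivity) (by positivity), Real.log_pow]
      unfold Cst
      norm_num
    rw [h4] at key
    norm_num at key
    linarith
  · intro ω hω
    obtain ⟨h3, h4, h5, h6, h7⟩ := hsup ω hω
    refine ⟨Finset.mem_filter.2 ⟨h7, h5⟩, Finset.mem_image.2 ⟨x ω, Finset.mem_filter.2 ⟨h3, ?_⟩, ?_⟩⟩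
    · show a ω * x ω + b ω ∈ Y (Q ω)
      rw [← h6]
      exact h4
    · show (x ω, a ω * x ω + b ω) = (x ω, y ω)
      rw [← h6]
  · intro ω _
    have h3 := h1 (X (Q ω)) (Y (Q ω)) ((L (Q ω)).filter (fun l => l.1 ≠ 0)) n m (hX _) (hY _)
      (fun l hl => (Finset.mem_filter.1 hl).2)
      ((Finset.card_filter_le _ _).trans (hL _))
    have h4 : ∑ l ∈ (L (Q ω)).filter (fun l => l.1 ≠ 0),
        ((((X (Q ω)).filter (fun x => l.1 * x + l.2 ∈ Y (Q ω))).image
          (fun x => (x, l.1 * x + l.2))).card) ^ 3 ≤ 4097 * (Nat.log 2 n + 1) * (n * m) ^ 2 := by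
      refine le_trans (Finset.sum_le_sum fun l _ => ?_) h3
      exact Nat.pow_le_pow_left Finset.card_image_le 3
    have h5 : ((∑ l ∈ (L (Q ω)).filter (fun l => l.1 ≠ 0),
        ((((X (Q ω)).filter (fun x => l.1 * x + l.2 ∈ Y (Q ω))).image
          (fun x => (x, l.1 * x + l.2))).card) ^ 3 : ℕ) : ℝ) ≤
        ((4097 * (Nat.log 2 n + 1) * (n * m) ^ 2 : ℕ) : ℝ) := by exact_mod_cast h4
    push_cast at h5
    exact h5

end Pool.Agent.W179.SP
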